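import Mathlib
import Pool.Agent.MP_26d9d0_an.h12.Final

set_option autoImplicit false

namespace Pool.Agent.Results.MP_26d9d0_an.Dichotomy

open Pool.Agent.MP_26d9d0_an

/-- In dimension `n = 1`, for all Lipschitz weights `δ ≥ δ'` the set `L` of bornological limits of
elements of `R` is closed for the inductive limit topology of `O(δ')` and equals the closure of `R`.
In every dimension `n ≥ 2` there are Lipschitz weights `δ ≥ δ'`, with `δ z = 1 / (1 + |z|)`, for
which `L` is not closed and does not contain the closure of `R`. -/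
theorem result (n : ℕ) :
    (n = 1 → ∀ (δ δ' : Weight n) (h : ∀ z, δ'.toFun z ≤ δ.toFun z) (K K' : NNReal),
      LipschitzWith K δ.toFun → LipschitzWith K' δ'.toFun →
      @IsClosed (O δ') (topO δ') (L δ δ' h) ∧
        L δ δ' h = @closure (O δ') (topO δ') (R δ δ' h)) ∧
    (2 ≤ n → ∃ (δ δ' : Weight n) (h : ∀ z, δ'.toFun z ≤ δ.toFun z),
      LipschitzWith 1 δ.toFun ∧ LipschitzWith 1 δ'.toFun ∧
      (∀ z, δ.toFun z = 1 / (1 + ‖z‖)) ∧
      ¬ @IsClosed (O δ') (topO δ') (L δ δ' h) ∧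
      ¬ (@closure (O δ') (topO δ') (R δ δ' h) ⊆ L δ δ' h)) := by
  refine ⟨?_, fun hn => ?_⟩
  · rintro rfl δ δ' h K K' hK hK'
    have h1 := (H12.L_subset_closure δ δ' h).antisymm (H12.closure_subset_L δ δ' h hK hK')
    exact ⟨h1 ▸ @isClosed_closure _ (topO δ') _, h1⟩
  · have hij : (⟨0, by omega⟩ : Fin n) ≠ ⟨1, by omega⟩ := by simp
    have h1 := fun h : @closure _ (topO (δ₁ ⟨1, by omega⟩)) (R (δ₀ n) _ (δ₁_le _)) ⊆
      L (δ₀ n) _ (δ₁_le _) => target_not_mem hij (h (target_mem_closure hij))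
    exact ⟨δ₀ n, δ₁ ⟨1, by omega⟩, δ₁_le _, lip_inv, lip_small _, fun _ => rfl,
      fun h => h1 (@closure_minimal _ (topO _) _ _ (H12.R_subset_L _ _ _) h), h1⟩

end Pool.Agent.Results.MP_26d9d0_an.Dichotomy
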